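import Pool.Agent.Q319.DR.Twist
import Pool.Agent.Q21.DW.Dy
import Pool.Agent.Q44.Appr

/-!
# From a law for almost all twists in boxes to a law for almost all twists, at a scale given by the twist
-/

set_option autoImplicit false

namespace Pool.Agent.Q233.TR

open Filter MeasureTheory

open Pool.Agent.Q21.DW (PS)

/-- `Q x D` holds for some natural number `x` with `log ^ C |D| ≤ x ≤ |D| ^ c` -/
def Bad (Q : ℕ → ℤ → Prop) (C c : ℝ) (D : ℤ) : Prop :=
  ∃ x : ℕ, (Real.log |(D : ℝ)|) ^ C ≤ x ∧ (x : ℝ) ≤ |(D : ℝ)| ^ c ∧ Q x D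

/-- `Q` fails to hold, up to a power saving, for the `D` in `[-N, N]` at all `x` with `log ^ C N ≤ x ≤ N ^ c` -/
def Law (Q : ℕ → ℤ → Prop) : Prop :=
  ∃ C c : ℝ, 0 < C ∧ 0 < c ∧ ∃ N₀ : ℕ, ∀ N : ℕ, N₀ ≤ N →
    ({D : ℤ | D ≠ 0 ∧ |D| ≤ N ∧ ∃ x : ℕ, (Real.log N) ^ C ≤ x ∧ (x : ℝ) ≤ (N : ℝ) ^ c ∧ Q x D}.ncard : ℝ) ≤
      (N : ℝ) ^ (1 - c)

theorem ps_law (Q : ℕ → ℤ → Prop) (h : Law Q) :
    ∃ C c : ℝ, 0 < C ∧ 0 < c ∧ c ≤ 1 ∧ PS (1 - c) (fun n => ∃ D : ℤ, D.natAbs = n ∧ Bad Q C c D) := by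
  obtain ⟨C, c, hC, hc, N₀, h⟩ := h
  obtain ⟨N₁, h1⟩ := eventually_atTop.1
    ((Real.tendsto_log_atTop.comp tendsto_natCast_atTop_atTop).eventually_ge_atTop (max 2 ((2 : ℝ) ^ (C + 1))))
  refine ⟨C + 1, min c 1, by linarith, lt_min hc one_pos, min_le_right _ _, ?_⟩
  refine Pool.Agent.Q21.DW.ps_dyadic' (by linarith [min_le_right c 1]) fun t ht => ⟨1, N₀ + N₁ + 4, fun N hN hN1 => ?_⟩
  have hN4 : (4 : ℝ) ≤ N := by exact_mod_cast (by omega : 4 ≤ N)
  have hN0 : (0 : ℝ) < N := by linarith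
  have hl := h1 N (by omega)
  simp only [Function.comp_apply] at hl
  have hl2 : 2 ≤ Real.log N := (le_max_left _ _).trans hl
  have hlC : (2 : ℝ) ^ (C + 1) ≤ Real.log N := (le_max_right _ _).trans hl
  set S : Set ℤ := {D : ℤ | D ≠ 0 ∧ |D| ≤ N ∧ ∃ x : ℕ, (Real.log N) ^ C ≤ x ∧ (x : ℝ) ≤ (N : ℝ) ^ c ∧ Q x D} with hS
  have hSf : S.Finite := (Set.finite_Icc (-(N : ℤ)) N).subset fun D hD => Set.mem_Icc.2 (abs_le.1 hD.2.1)
  have h2 : {n : ℕ | 1 ≤ n ∧ n ≤ N ∧ N < 2 * n ∧ ∃ D : ℤ, D.natAbs = n ∧ Bad Q (C + 1) (min c 1) D} ⊆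
      Int.natAbs '' S := by
    rintro n ⟨hn1, hnN, hn2, D, hD, x, hx1, hx2, hx3⟩
    refine ⟨D, ⟨?_, ?_, x, ?_, ?_, hx3⟩, hD⟩
    · rintro rfl
      simp at hD
      omega
    · rw [← hD] at hnN
      rw [Int.abs_eq_natAbs]
      exact_mod_cast hnN
    · have e : |(D : ℝ)| = n := by rw [← hD, Nat.cast_natAbs, Int.cast_abs]
      rw [e] at hx1
      refine le_trans ?_ hx1
      have hnR : (N : ℝ) < 2 * n := by exact_mod_cast hn2
      have hn0 : (0 : ℝ) < n := by exact_mod_cast hn1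
      have h3 : Real.log N ≤ Real.log 2 + Real.log n := by
        rw [← Real.log_mul (by norm_num) hn0.ne']
        exact Real.log_le_log hN0 hnR.le
      have h4 : Real.log 2 ≤ 1 := by
        have := Real.log_two_lt_d9
        linarith
      have h5 : Real.log N / 2 ≤ Real.log n := by linarith
      calc Real.log N ^ C = (Real.log N / 2) ^ (C + 1) * (2 ^ (C + 1) / Real.log N) := by
            rw [Real.div_rpow (by linarith) (by norm_num), Real.rpow_add (by linarith : 0 < Real.log N), Real.rpow_one]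
            have : Real.log N ≠ 0 := by linarith
            have : (2 : ℝ) ^ (C + 1) ≠ 0 := by positivity
            field_simp
        _ ≤ (Real.log N / 2) ^ (C + 1) * 1 := by
            refine mul_le_mul_of_nonneg_left ?_ (by positivity)
            rw [div_le_one (by linarith)]
            exact hlC
        _ = (Real.log N / 2) ^ (C + 1) := mul_one _
        _ ≤ Real.log n ^ (C + 1) := Real.rpow_le_rpow (by linarith) h5 (by linarith)
    · have e : |(D : ℝ)| = n := by rw [← hD, Nat.cast_natAbs, Int.cast_abs]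
      rw [e] at hx2
      have hnR : (n : ℝ) ≤ N := by exact_mod_cast hnN
      refine hx2.trans ((Real.rpow_le_rpow (Nat.cast_nonneg _) hnR (le_min hc.le zero_le_one)).trans ?_)
      exact Real.rpow_le_rpow_of_exponent_le (by linarith) (min_le_left _ _)
  have h3 := (Set.ncard_le_ncard h2 (hSf.image _)).trans (Set.ncard_image_le hSf)
  have h4 := h N (by omega)
  rw [one_mul]
  calc _ ≤ (S.ncard : ℝ) := by exact_mod_cast h3
    _ ≤ (N : ℝ) ^ (1 - c) := h4
    _ ≤ (N : ℝ) ^ t := Real.rpow_le_rpow_of_exponent_le (by linarith) (by linarith [min_le_left c 1])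

/-- the real numbers given by continued fractions and other good approximations -/
theorem approx_law (Q : ℕ → ℤ → Prop) (h : Law Q) :
    ∃ C c : ℝ, 0 < C ∧ 0 < c ∧ c ≤ 1 ∧
      Pool.Agent.Q44.CF.AtApproximations (1 - c) (fun n : ℕ => ∀ D : ℤ, D.natAbs = n → ¬ Bad Q C c D) := by
  obtain ⟨C, c, hC, hc, hc1, hP⟩ := ps_law Q h
  exact ⟨C, c, hC, hc, hc1, Pool.Agent.Q44.CF.at_of (by linarith) hP fun n hn => by push Not at hn; exact hn⟩

/-- dilates of almost every real number -/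
theorem dilate_law (Q : ℕ → ℤ → Prop) (h : Law Q) :
    ∃ C c : ℝ, 0 < C ∧ 0 < c ∧ ∀ b : ℕ → ℝ, (∀ k, 1 ≤ b k ∧ (k : ℝ) ^ (1 / c) ≤ b k) →
      ∀ᵐ α : ℝ, 0 < α → ∀ᶠ k : ℕ in atTop, ∀ D : ℤ, D ≠ 0 → |(|(D : ℝ)|) - α * b k| ≤ b k ^ c → ¬ Bad Q C c D := by
  classical
  obtain ⟨C, c, hC, hc, hc1, hP⟩ := ps_law Q h
  obtain ⟨K, hK⟩ := hP (1 - c / 2) (by linarith)
  refine ⟨C, c / 6, hC, by linarith, fun b hb => ?_⟩
  have hbad : ∀ X : ℝ, 1 ≤ X → ∀ F : Finset ℤ, (∀ x ∈ F, |(x : ℝ)| ≤ X ∧ (x ≠ 0 ∧ Bad Q C c x)) →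
      (F.card : ℝ) ≤ (2 * |K|) * X ^ (1 - c / 2) := by
    intro X hX F hF
    have hX1 : 1 ≤ ⌊X⌋₊ := Nat.le_floor (by simpa using hX)
    have h1 : F.image Int.natAbs ⊆
        (Finset.Icc 1 ⌊X⌋₊).filter (fun n => ∃ D : ℤ, D.natAbs = n ∧ Bad Q C c D) := by
      intro n hn
      rw [Finset.mem_image] at hn
      obtain ⟨D, hD, rfl⟩ := hn
      obtain ⟨h2, h3, h4⟩ := hF D hD
      rw [Finset.mem_filter, Finset.mem_Icc]
      refine ⟨⟨Int.natAbs_pos.2 h3, Nat.le_floor ?_⟩, D, rfl, h4⟩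
      rw [Nat.cast_natAbs, Int.cast_abs]
      exact h2
    have h2 : F.card ≤ 2 * (F.image Int.natAbs).card := by
      refine Finset.card_le_mul_card_image F 2 ?_
      intro n _
      have : F.filter (fun D => D.natAbs = n) ⊆ {(n : ℤ), -(n : ℤ)} := by
        intro D hD
        rw [Finset.mem_filter] at hD
        rw [Finset.mem_insert, Finset.mem_singleton]
        omega
      exact (Finset.card_le_card this).trans Finset.card_le_two
    have h3 := hK ⌊X⌋₊ hX1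
    have h4 : ((F.image Int.natAbs).card : ℝ) ≤ K * (⌊X⌋₊ : ℝ) ^ (1 - c / 2) := by
      refine le_trans ?_ h3
      exact_mod_cast Finset.card_le_card (h1.trans (fun n hn => by simpa using hn))
    have h5 : (⌊X⌋₊ : ℝ) ^ (1 - c / 2) ≤ X ^ (1 - c / 2) :=
      Real.rpow_le_rpow (Nat.cast_nonneg _) (Nat.floor_le (by linarith)) (by linarith)
    calc (F.card : ℝ) ≤ 2 * ((F.image Int.natAbs).card : ℝ) := by exact_mod_cast h2
      _ ≤ 2 * (K * (⌊X⌋₊ : ℝ) ^ (1 - c / 2)) := by linarith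
      _ ≤ 2 * (|K| * X ^ (1 - c / 2)) := by
          refine mul_le_mul_of_nonneg_left ?_ (by norm_num)
          exact mul_le_mul (le_abs_self K) h5 (by positivity) (abs_nonneg K)
      _ = _ := by ring
  have hsum : Summable (fun k => b k ^ (c / 6) * b k ^ (-(c / 2))) := by
    refine Summable.of_norm_bounded_eventually_nat (g := fun k : ℕ => 1 / (k : ℝ) ^ 2)
      (Real.summable_one_div_nat_pow.2 (by norm_num)) ?_
    filter_upwards [eventually_ge_atTop 1] with k hk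
    have hk0 : (0 : ℝ) < k := by exact_mod_cast hk
    have hb0 : 0 < b k := by linarith [(hb k).1]
    rw [Real.norm_of_nonneg (by positivity), ← Real.rpow_add hb0]
    have e : c / 6 + -(c / 2) = -(c / 3) := by ring
    rw [e]
    calc b k ^ (-(c / 3)) ≤ ((k : ℝ) ^ (1 / (c / 6))) ^ (-(c / 3)) :=
          Real.rpow_le_rpow_of_nonpos (by positivity) (hb k).2 (by linarith)
      _ = (k : ℝ) ^ (-2 : ℝ) := by
          rw [← Real.rpow_mul hk0.le]
          congr 1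
          field_simp
          norm_num
      _ = 1 / (k : ℝ) ^ 2 := by
          rw [Real.rpow_neg hk0.le, one_div]
          congr 1
          exact_mod_cast Real.rpow_natCast (k : ℝ) 2
  have h6 := Pool.Agent.Q319.DR.win_bc (c / 2) (fun x => x ≠ 0 ∧ Bad Q C c x) (2 * |K|) hbad b
    (fun k => b k ^ (c / 6)) (fun k => (hb k).1) (fun k => ⟨by have := (hb k).1; positivity, by
      have h7 := (hb k).1
      calc b k ^ (c / 6) ≤ b k ^ (1 : ℝ) := Real.rpow_le_rpow_of_exponent_le h7 (by linarith)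
        _ = b k := Real.rpow_one _⟩) hsum
  filter_upwards [h6] with α hα hα0
  filter_upwards [hα hα0] with k hk D hD hDk hbadD
  refine hk D hD hDk ⟨hD, ?_⟩
  obtain ⟨x, hx1, hx2, hx3⟩ := hbadD
  refine ⟨x, hx1, hx2.trans (Real.rpow_le_rpow_of_exponent_le ?_ (by linarith)), hx3⟩
  have : (1 : ℤ) ≤ |D| := Int.one_le_abs hD
  exact_mod_cast this

end Pool.Agent.Q233.TR
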